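import Pool.Agent.W819.NC.Stm

/-!
# Project NC (MP_216314_pr), subtask NC-TWO1: distant points in a large box
-/

set_option autoImplicit false
set_option maxHeartbeats 4000000

namespace Pool.Agent.W683.NC

open H974 Finset Pool.Agent.W819.EN Pool.Agent.W819.NC

lemma hokP : Ok P2 := okq (q := (1 / 2 : ℝ)) (by norm_num) (by norm_num)

lemma bx_sub {v u : Vtx} {k l D : ℤ} (h1 : |u.1 - v.1| ≤ D) (h2 : |u.2 - v.2| ≤ D)
    (h : k + D ≤ l) : bx u k ⊆ bx v l := by
  rw [abs_le] at h1 h2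
  unfold bx
  exact RE_subset (by omega) (by omega) (by omega) (by omega)

lemma bx_sub0 {v : Vtx} {k l : ℤ} (h : k ≤ l) : bx v k ⊆ bx v l := by
  unfold bx
  exact RE_subset (by omega) (by omega) (by omega) (by omega)

lemma loc_mono {X : Finset Edg → ℕ} {S T C : Finset Edg} (h : ∀ F, X F = X (F ∩ T))
    (hTC : ∀ e ∈ S, e ∈ T → e ∈ C) (F : Finset Edg) (hF : F ⊆ S) : X F = X (F ∩ C) := by
  rw [h F, h (F ∩ C)]
  congr 1
  ext x
  simp only [mem_inter]
  constructor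
  · rintro ⟨h1, h2⟩
    exact ⟨⟨h1, hTC x (hF h1) h2⟩, h2⟩
  · rintro ⟨⟨h1, -⟩, h2⟩
    exact ⟨h1, h2⟩

lemma tri {S A B C : Finset Edg} (hA : A ⊆ S) (hB : B ⊆ S) (hC : C ⊆ S) (hAB : Disjoint A B)
    (hAC : Disjoint A C) (hBC : Disjoint B C) {f g k : Finset Edg → ℝ}
    (hf : ∀ F, F ⊆ S → f F = f (F ∩ A)) (hg : ∀ F, F ⊆ S → g F = g (F ∩ B))
    (hk : ∀ F, F ⊆ S → k F = k (F ∩ C)) :
    Ex P2 S (fun F => f F * g F * k F) = Ex P2 S f * Ex P2 S g * Ex P2 S k := by
  have h0 : Ex P2 S (fun F => f F * g F * k F) = Ex P2 S (fun F => f F * g F) * Ex P2 S k := by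
    refine Ex_mul_indep (p := P2) (S := A ∪ B) (T := C) (f := fun F => f F * g F) (g := k)
      (union_subset hA hB) hC (disjoint_union_left.2 ⟨hAC, hBC⟩) ?_ hk
    intro F hF
    have hU : F ∩ (A ∪ B) ⊆ S := inter_subset_left.trans hF
    have e1 : F ∩ (A ∪ B) ∩ A = F ∩ A := by
      ext x; simp only [mem_inter, mem_union]; tauto
    have e2 : F ∩ (A ∪ B) ∩ B = F ∩ B := by
      ext x; simp only [mem_inter, mem_union]; tauto
    show f F * g F = f (F ∩ (A ∪ B)) * g (F ∩ (A ∪ B))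
    rw [hf F hF, hg F hF, hf _ hU, hg _ hU, e1, e2]
  rw [h0, Ex_mul_indep hA hB hAB hf hg]

/-- the nine pieces of one point -/
def pcs (N : NT) (W : WT) (Kf : Finset Edg → ℕ) (v u : Vtx) (a D n : ℕ) : ℕ → Finset Edg → ℕ
  | 0 => fun F => W F u a
  | 1 => fun F => N F u a (8 * a)
  | 2 => fun F => W F u (4 * a)
  | 3 => fun F => 2 * Kf F
  | 4 => fun F => W F u (3 * D)
  | 5 => fun F => N F v (2 * D) (8 * D)
  | 6 => fun F => W F v (4 * D)
  | 7 => fun F => W F v ((n - D) / 2)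
  | _ => fun F => N F v ((n - D) / 2) (n + D)

lemma sum_pcs (N : NT) (W : WT) (Kf : Finset Edg → ℕ) (v u : Vtx) (a D n : ℕ)
    (F : Finset Edg) : ∑ j ∈ range 9, pcs N W Kf v u a D n j F =
    (W F u a + N F u a (8 * a) + W F u (4 * a)) + 2 * Kf F +
      (W F u (3 * D) + N F v (2 * D) (8 * D) + W F v (4 * D) + W F v ((n - D) / 2) +
        N F v ((n - D) / 2) (n + D)) := by
  simp only [Finset.sum_range_succ, Finset.sum_range_zero, pcs]
  ring

lemma pow_aux {t s : ℝ} (ht : 0 < t) (hs : 1 ≤ s) (h1 : t ≤ s) (h2 : t⁻¹ ≤ s) {e P : ℕ}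
    (h : e ≤ P) : t ^ e ≤ s ^ P ∧ 1 ≤ t ^ e * s ^ P := by
  constructor
  · exact (pow_le_pow_left₀ ht.le h1 e).trans (pow_le_pow_right₀ hs h)
  · have h3 : (t⁻¹) ^ e ≤ s ^ P :=
      (pow_le_pow_left₀ (by positivity) h2 e).trans (pow_le_pow_right₀ hs h)
    have h4 : t ^ e * (t⁻¹) ^ e = 1 := by
      rw [← mul_pow, mul_inv_cancel₀ ht.ne', one_pow]
    calc (1 : ℝ) = t ^ e * (t⁻¹) ^ e := h4.symm
      _ ≤ t ^ e * s ^ P := mul_le_mul_of_nonneg_left h3 (by positivity)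

theorem t_TWO1 {N : NT} {W : WT} {K : KT} (h : Sys N W K) (hl : LocG N) (hd : Dec)
    (hx : XPc N W) (hz : ZPc N W) (hk : KPc N K) (hp : Pw N W) : Two1 N := by
  intro t1 t2 ht1 ht2
  obtain ⟨s, hs, hs1, hs1', hs2, hs2'⟩ : ∃ s : ℝ, 1 ≤ s ∧ t1 ≤ s ∧ t1⁻¹ ≤ s ∧ t2 ≤ s ∧ t2⁻¹ ≤ s := by
    have i1 : (0 : ℝ) < t1⁻¹ := by positivity
    have i2 : (0 : ℝ) < t2⁻¹ := by positivity
    exact ⟨1 + t1 + t1⁻¹ + t2 + t2⁻¹, by linarith, by linarith, by linarith, by linarith,
      by linarith⟩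
  have ht12 : 0 < t1 * t2 := mul_pos ht1 ht2
  obtain ⟨C1, hC1, H1⟩ := hx t1 (s ^ 18) ht1 (one_le_pow₀ hs)
  obtain ⟨C2, hC2, H2⟩ := hx t2 (s ^ 18) ht2 (one_le_pow₀ hs)
  obtain ⟨C3, hC3, H3⟩ := hz (t1 * t2) (s ^ 18) ht12 (one_le_pow₀ hs)
  obtain ⟨C4, hC4, H4⟩ := hk (t1 * t2) (s ^ 36) ht12 (one_le_pow₀ hs)
  refine ⟨C1 + C2 + C3 + C4, by positivity, ?_⟩
  intro v w a D n S ha haD hDa hDn hvw hv1 hv2 hD hS
  have hw1 : |w.1 - v.1| ≤ D := by rw [abs_sub_comm]; exact hv1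
  have hw2 : |w.2 - v.2| ≤ D := by rw [abs_sub_comm]; exact hv2
  have hvv1 : |v.1 - v.1| ≤ (D : ℤ) := by simp
  have hvv2 : |v.2 - v.2| ≤ (D : ℤ) := by simp
  set G1 : ℝ := G N t1 0 (2 * a) with hG1
  set G2 : ℝ := G N t2 0 (2 * a) with hG2
  set G3 : ℝ := G N (t1 * t2) (4 * D) (n - D) with hG3
  have hGnn : ∀ t : ℝ, 0 < t → ∀ r R : ℕ, 0 ≤ G N t r R := fun t ht r R =>
    Ex_nonneg hokP fun F _ => (pow_pos ht _).le
  have g1 : 0 ≤ G1 := hGnn t1 ht1 _ _
  have g2 : 0 ≤ G2 := hGnn t2 ht2 _ _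
  have g3 : 0 ≤ G3 := hGnn _ ht12 _ _
  set B : ℝ := C1 + C2 + C3 + C4 with hB
  set U : Finset Edg → ℝ := fun F =>
    t1 ^ N F v 0 (2 * a) * t2 ^ N F w 0 (2 * a) * (t1 * t2) ^ N F v (4 * D) (n - D) with hU
  -- regions
  have sv2 : bx v ((2 * a : ℕ) : ℤ) ⊆ S := (bx_sub0 (by omega)).trans hS
  have sw2 : bx w ((2 * a : ℕ) : ℤ) ⊆ S := (bx_sub hw1 hw2 (by omega)).trans hS
  have sv8 : bx v (8 * a) ⊆ S := (bx_sub0 (by omega)).trans hS
  have sw8 : bx w (8 * a) ⊆ S := (bx_sub hw1 hw2 (by omega)).trans hS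
  have snD : bx v ((n - D : ℕ) : ℤ) ⊆ S := (bx_sub0 (by omega)).trans hS
  have san : an v (4 * D) (n - D) ⊆ S := sdiff_subset.trans snD
  have lN : ∀ (u : Vtx) (r R : ℕ), r ≤ R → ∀ F, N F u r R = N (F ∩ an u r R) u r R :=
    fun u r R hr F => h.geo.loc F u r R hr
  have lW : ∀ (u : Vtx) (b : ℕ), 1 ≤ b → ∀ F, W F u b = W (F ∩ an u b (2 * b)) u b :=
    fun u b hb F => h.wloc F u b hb
  have d88 : Disjoint (bx v (8 * a)) (bx w (8 * a)) := by
    rw [Finset.disjoint_left]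
    rintro ⟨x, y, _ | _⟩ e1 e2
    · simp only [bx, mem_RE_false] at e1 e2
      rcases hD with hD | hD
      · omega
      · rcases abs_cases (v.2 - w.2) with hc | hc <;> omega
    · simp only [bx, mem_RE_true] at e1 e2
      rcases hD with hD | hD
      · omega
      · rcases abs_cases (v.2 - w.2) with hc | hc <;> omega
  have dan : ∀ (u : Vtx) (k : ℤ) (u' : Vtx) (r R : ℕ), bx u k ⊆ bx u' ((r : ℤ) - 1) →
      Disjoint (bx u k) (an u' r R) := by
    intro u k u' r R hs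
    unfold an
    exact Finset.disjoint_left.2 fun e he he' => (Finset.mem_sdiff.1 he').2 (hs he)
  have dv8 : Disjoint (bx v (8 * a)) (an v (4 * D) (n - D)) :=
    dan _ _ _ _ _ (bx_sub0 (by omega))
  have dw8 : Disjoint (bx w (8 * a)) (an v (4 * D) (n - D)) :=
    dan _ _ _ _ _ (bx_sub hw1 hw2 (by omega))
  have v28 : bx v ((2 * a : ℕ) : ℤ) ⊆ bx v (8 * a) := bx_sub0 (by omega)
  have w28 : bx w ((2 * a : ℕ) : ℤ) ⊆ bx w (8 * a) := bx_sub0 (by omega)
  have ansub : ∀ (u : Vtx) (r R : ℕ), an u r R ⊆ bx u R := fun u r R => sdiff_subset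
  -- the three kinds of pieces
  have vtype : ∀ (X : Finset Edg → ℕ) (T : Finset Edg), (∀ F, X F = X (F ∩ T)) →
      T ⊆ bx v (8 * a) →
      Ex P2 S (fun F => t1 ^ N F v 0 (2 * a) * (s ^ 18) ^ X F) ≤ C1 * G1 →
      Ex P2 S (fun F => U F * s ^ (18 * X F)) ≤ B * (G1 * G2 * G3) := by
    intro X T hX hT hb
    have e1 : Ex P2 S (fun F => U F * s ^ (18 * X F)) = Ex P2 S (fun F =>
        (t1 ^ N F v 0 (2 * a) * (s ^ 18) ^ X F) * t2 ^ N F w 0 (2 * a) *
          (t1 * t2) ^ N F v (4 * D) (n - D)) :=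
      Ex_congr fun F _ => by simp only [hU]; rw [pow_mul]; ring
    rw [e1, tri (A := bx v (8 * a)) (B := bx w ((2 * a : ℕ) : ℤ)) (C := an v (4 * D) (n - D))
      sv8 sw2 san (d88.mono_right w28) dv8 (dw8.mono_left w28)
      (f := fun F => t1 ^ N F v 0 (2 * a) * (s ^ 18) ^ X F) (g := fun F => t2 ^ N F w 0 (2 * a))
      (k := fun F => (t1 * t2) ^ N F v (4 * D) (n - D))
      (fun F hF => by
        rw [← loc_mono (lN v 0 (2 * a) (by omega)) (fun e _ he => v28 (ansub _ _ _ he)) F hF,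
          ← loc_mono hX (fun e _ he => hT he) F hF])
      (fun F hF => by
        rw [← loc_mono (lN w 0 (2 * a) (by omega)) (fun e _ he => ansub _ _ _ he) F hF])
      (fun F _ => by
        rw [← lN v (4 * D) (n - D) (by omega) F])]
    rw [hl t2 w 0 (2 * a) S (by omega) sw2, hl (t1 * t2) v (4 * D) (n - D) S (by omega) snD]
    calc _ ≤ (C1 * G1) * G2 * G3 :=
          mul_le_mul_of_nonneg_right (mul_le_mul_of_nonneg_right hb g2) g3
      _ = C1 * (G1 * G2 * G3) := by ring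
      _ ≤ B * (G1 * G2 * G3) := by
          refine mul_le_mul_of_nonneg_right ?_ (mul_nonneg (mul_nonneg g1 g2) g3)
          rw [hB]; linarith
  have wtype : ∀ (X : Finset Edg → ℕ) (T : Finset Edg), (∀ F, X F = X (F ∩ T)) →
      T ⊆ bx w (8 * a) →
      Ex P2 S (fun F => t2 ^ N F w 0 (2 * a) * (s ^ 18) ^ X F) ≤ C2 * G2 →
      Ex P2 S (fun F => U F * s ^ (18 * X F)) ≤ B * (G1 * G2 * G3) := by
    intro X T hX hT hb
    have e1 : Ex P2 S (fun F => U F * s ^ (18 * X F)) = Ex P2 S (fun F =>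
        t1 ^ N F v 0 (2 * a) * (t2 ^ N F w 0 (2 * a) * (s ^ 18) ^ X F) *
          (t1 * t2) ^ N F v (4 * D) (n - D)) :=
      Ex_congr fun F _ => by simp only [hU]; rw [pow_mul]; ring
    rw [e1, tri (A := bx v ((2 * a : ℕ) : ℤ)) (B := bx w (8 * a)) (C := an v (4 * D) (n - D))
      sv2 sw8 san (d88.mono_left v28) (dv8.mono_left v28) dw8
      (f := fun F => t1 ^ N F v 0 (2 * a)) (g := fun F => t2 ^ N F w 0 (2 * a) * (s ^ 18) ^ X F)
      (k := fun F => (t1 * t2) ^ N F v (4 * D) (n - D))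
      (fun F hF => by
        rw [← loc_mono (lN v 0 (2 * a) (by omega)) (fun e _ he => ansub _ _ _ he) F hF])
      (fun F hF => by
        rw [← loc_mono (lN w 0 (2 * a) (by omega)) (fun e _ he => w28 (ansub _ _ _ he)) F hF,
          ← loc_mono hX (fun e _ he => hT he) F hF])
      (fun F _ => by
        rw [← lN v (4 * D) (n - D) (by omega) F])]
    rw [hl t1 v 0 (2 * a) S (by omega) sv2, hl (t1 * t2) v (4 * D) (n - D) S (by omega) snD]
    calc _ ≤ G1 * (C2 * G2) * G3 :=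
          mul_le_mul_of_nonneg_right (mul_le_mul_of_nonneg_left hb g1) g3
      _ = C2 * (G1 * G2 * G3) := by ring
      _ ≤ B * (G1 * G2 * G3) := by
          refine mul_le_mul_of_nonneg_right ?_ (mul_nonneg (mul_nonneg g1 g2) g3)
          rw [hB]; linarith
  have ztype : ∀ (X : Finset Edg → ℕ) (T : Finset Edg) (q : ℕ), (∀ F, X F = X (F ∩ T)) →
      Disjoint (bx v ((2 * a : ℕ) : ℤ)) T → Disjoint (bx w ((2 * a : ℕ) : ℤ)) T →
      Ex P2 S (fun F => (t1 * t2) ^ N F v (4 * D) (n - D) * (s ^ q) ^ X F) ≤ (C3 + C4) * G3 →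
      Ex P2 S (fun F => U F * s ^ (q * X F)) ≤ B * (G1 * G2 * G3) := by
    intro X T q hX hT1 hT2 hb
    have e1 : Ex P2 S (fun F => U F * s ^ (q * X F)) = Ex P2 S (fun F =>
        t1 ^ N F v 0 (2 * a) * t2 ^ N F w 0 (2 * a) *
          ((t1 * t2) ^ N F v (4 * D) (n - D) * (s ^ q) ^ X F)) :=
      Ex_congr fun F _ => by simp only [hU]; rw [pow_mul]; ring
    have dC1 : Disjoint (bx v ((2 * a : ℕ) : ℤ))
        (S \ (bx v ((2 * a : ℕ) : ℤ) ∪ bx w ((2 * a : ℕ) : ℤ))) :=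
      Finset.disjoint_left.2 fun e he he' =>
        (Finset.mem_sdiff.1 he').2 (Finset.mem_union_left _ he)
    have dC2 : Disjoint (bx w ((2 * a : ℕ) : ℤ))
        (S \ (bx v ((2 * a : ℕ) : ℤ) ∪ bx w ((2 * a : ℕ) : ℤ))) :=
      Finset.disjoint_left.2 fun e he he' =>
        (Finset.mem_sdiff.1 he').2 (Finset.mem_union_right _ he)
    rw [e1, tri (A := bx v ((2 * a : ℕ) : ℤ)) (B := bx w ((2 * a : ℕ) : ℤ))
      (C := S \ (bx v ((2 * a : ℕ) : ℤ) ∪ bx w ((2 * a : ℕ) : ℤ)))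
      sv2 sw2 sdiff_subset ((d88.mono_left v28).mono_right w28) dC1 dC2
      (f := fun F => t1 ^ N F v 0 (2 * a)) (g := fun F => t2 ^ N F w 0 (2 * a))
      (k := fun F => (t1 * t2) ^ N F v (4 * D) (n - D) * (s ^ q) ^ X F)
      (fun F hF => by
        rw [← loc_mono (lN v 0 (2 * a) (by omega)) (fun e _ he => ansub _ _ _ he) F hF])
      (fun F hF => by
        rw [← loc_mono (lN w 0 (2 * a) (by omega)) (fun e _ he => ansub _ _ _ he) F hF])
      (fun F hF => by
        rw [← loc_mono (lN v (4 * D) (n - D) (by omega)) (fun e he1 he2 => by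
            rw [Finset.mem_sdiff, Finset.mem_union, not_or]
            exact ⟨he1, fun hc => (Finset.disjoint_left.1 (dv8.mono_left v28)) hc he2,
              fun hc => (Finset.disjoint_left.1 (dw8.mono_left w28)) hc he2⟩) F hF,
          ← loc_mono hX (fun e he1 he2 => by
            rw [Finset.mem_sdiff, Finset.mem_union, not_or]
            exact ⟨he1, fun hc => (Finset.disjoint_left.1 hT1) hc he2,
              fun hc => (Finset.disjoint_left.1 hT2) hc he2⟩) F hF])]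
    rw [hl t1 v 0 (2 * a) S (by omega) sv2, hl t2 w 0 (2 * a) S (by omega) sw2]
    calc _ ≤ G1 * G2 * ((C3 + C4) * G3) :=
          mul_le_mul_of_nonneg_left hb (mul_nonneg g1 g2)
      _ = (C3 + C4) * (G1 * G2 * G3) := by ring
      _ ≤ B * (G1 * G2 * G3) := by
          refine mul_le_mul_of_nonneg_right ?_ (mul_nonneg (mul_nonneg g1 g2) g3)
          rw [hB]; linarith
  -- the expectation of `U`
  have hEU : Ex P2 S U = G1 * G2 * G3 := by
    rw [hU, tri (A := bx v ((2 * a : ℕ) : ℤ)) (B := bx w ((2 * a : ℕ) : ℤ))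
      (C := an v (4 * D) (n - D)) sv2 sw2 san ((d88.mono_left v28).mono_right w28)
      (dv8.mono_left v28) (dw8.mono_left w28)
      (f := fun F => t1 ^ N F v 0 (2 * a)) (g := fun F => t2 ^ N F w 0 (2 * a))
      (k := fun F => (t1 * t2) ^ N F v (4 * D) (n - D))
      (fun F hF => by
        rw [← loc_mono (lN v 0 (2 * a) (by omega)) (fun e _ he => ansub _ _ _ he) F hF])
      (fun F hF => by
        rw [← loc_mono (lN w 0 (2 * a) (by omega)) (fun e _ he => ansub _ _ _ he) F hF])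
      (fun F _ => by
        rw [← lN v (4 * D) (n - D) (by omega) F]),
      hl t1 v 0 (2 * a) S (by omega) sv2, hl t2 w 0 (2 * a) S (by omega) sw2,
      hl (t1 * t2) v (4 * D) (n - D) S (by omega) snD]
  -- the pieces of the annulus around both points
  set KL : Finset Edg → ℕ := fun F =>
    K F (v.1 - 6 * D) (v.1 - 4 * a) (v.2 - 4 * a) (v.2 + 4 * a) with hKL
  set KR : Finset Edg → ℕ := fun F =>
    K F (w.1 + 4 * a) (w.1 + 6 * D) (w.2 - 4 * a) (w.2 + 4 * a) with hKR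
  have hq1 : 4 * D ≤ (n - D) / 2 := by omega
  have zall : ∀ u : Vtx, |u.1 - v.1| ≤ D → |u.2 - v.2| ≤ D → |v.1 - u.1| ≤ D → |v.2 - u.2| ≤ D →
      |w.1 - u.1| ≤ D → |w.2 - u.2| ≤ D →
      ∀ j, 4 ≤ j → j < 9 → ∀ Kf : Finset Edg → ℕ,
      Ex P2 S (fun F => U F * s ^ (18 * pcs N W Kf v u a D n j F)) ≤ B * (G1 * G2 * G3) := by
    intro u hu1 hu2 hu3 hu4 hu5 hu6 j hj1 hj2 Kf
    obtain ⟨b1, b2, b3, b4, b5⟩ := H3 v u D n S (by omega) hDn hu1 hu2 hS
    have hC : C3 * G3 ≤ (C3 + C4) * G3 := by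
      refine mul_le_mul_of_nonneg_right ?_ g3
      linarith
    interval_cases j
    · exact ztype (fun F => W F u (3 * D)) _ 18 (lW u (3 * D) (by omega))
        (dan _ _ _ _ _ (bx_sub hu3 hu4 (by omega))) (dan _ _ _ _ _ (bx_sub hu5 hu6 (by omega)))
        (b1.trans hC)
    · exact ztype (fun F => N F v (2 * D) (8 * D)) _ 18 (lN v (2 * D) (8 * D) (by omega))
        (dan _ _ _ _ _ (bx_sub0 (by omega))) (dan _ _ _ _ _ (bx_sub hw1 hw2 (by omega)))
        (b2.trans hC)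
    · exact ztype (fun F => W F v (4 * D)) _ 18 (lW v (4 * D) (by omega))
        (dan _ _ _ _ _ (bx_sub0 (by omega))) (dan _ _ _ _ _ (bx_sub hw1 hw2 (by omega)))
        (b3.trans hC)
    · exact ztype (fun F => W F v ((n - D) / 2)) _ 18 (lW v ((n - D) / 2) (by omega))
        (dan _ _ _ _ _ (bx_sub0 (by omega))) (dan _ _ _ _ _ (bx_sub hw1 hw2 (by omega)))
        (b4.trans hC)
    · exact ztype (fun F => N F v ((n - D) / 2) (n + D)) _ 18
        (lN v ((n - D) / 2) (n + D) (by omega))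
        (dan _ _ _ _ _ (bx_sub0 (by omega))) (dan _ _ _ _ _ (bx_sub hw1 hw2 (by omega)))
        (b5.trans hC)
  have kpow : ∀ x : ℕ, s ^ (18 * (2 * x)) = s ^ (36 * x) := fun x => by congr 1; ring
  have zK : Ex P2 S (fun F => U F * s ^ (18 * (2 * KL F))) ≤ B * (G1 * G2 * G3) ∧
      Ex P2 S (fun F => U F * s ^ (18 * (2 * KR F))) ≤ B * (G1 * G2 * G3) := by
    simp only [kpow]
    have hC : C4 * G3 ≤ (C3 + C4) * G3 := by
      refine mul_le_mul_of_nonneg_right ?_ g3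
      linarith
    constructor
    · refine ztype KL (LRE (v.1 - 6 * D) (v.1 - 4 * a) (v.2 - 4 * a) (v.2 + 4 * a)) 36
        (fun F => h.kloc F _ _ _ _) ?_ ?_
        (((H4 v v a D n S ha haD hDa hDn hvv1 hvv2 hS).2).trans hC)
      · rw [Finset.disjoint_left]
        rintro ⟨x, y, _ | _⟩ e1 e2
        · simp only [bx, mem_RE_false, mem_LRE_false] at e1 e2; omega
        · simp only [bx, mem_RE_true, mem_LRE_true] at e1 e2; omega
      · rw [Finset.disjoint_left]
        rintro ⟨x, y, _ | _⟩ e1 e2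
        · simp only [bx, mem_RE_false, mem_LRE_false] at e1 e2; omega
        · simp only [bx, mem_RE_true, mem_LRE_true] at e1 e2; omega
    · refine ztype KR (LRE (w.1 + 4 * a) (w.1 + 6 * D) (w.2 - 4 * a) (w.2 + 4 * a)) 36
        (fun F => h.kloc F _ _ _ _) ?_ ?_
        (((H4 v w a D n S ha haD hDa hDn hw1 hw2 hS).1).trans hC)
      · rw [Finset.disjoint_left]
        rintro ⟨x, y, _ | _⟩ e1 e2
        · simp only [bx, mem_RE_false, mem_LRE_false] at e1 e2; omega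
        · simp only [bx, mem_RE_true, mem_LRE_true] at e1 e2; omega
      · rw [Finset.disjoint_left]
        rintro ⟨x, y, _ | _⟩ e1 e2
        · simp only [bx, mem_RE_false, mem_LRE_false] at e1 e2; omega
        · simp only [bx, mem_RE_true, mem_LRE_true] at e1 e2; omega
  have pv : ∀ j < 9, Ex P2 S (fun F => U F * s ^ (18 * pcs N W KL v v a D n j F)) ≤
      B * (G1 * G2 * G3) := by
    intro j hj
    rcases Nat.lt_or_ge j 4 with h4 | h4
    · obtain ⟨b1, b2, b3⟩ := H1 v a S ha sv8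
      interval_cases j
      · exact vtype (fun F => W F v a) _ (lW v a ha)
          ((ansub _ _ _).trans (bx_sub0 (by omega))) b1
      · exact vtype (fun F => N F v a (8 * a)) _ (lN v a (8 * a) (by omega))
          ((ansub _ _ _).trans (bx_sub0 (by omega))) b2
      · exact vtype (fun F => W F v (4 * a)) _ (lW v (4 * a) (by omega))
          ((ansub _ _ _).trans (bx_sub0 (by omega))) b3
      · exact zK.1
    · exact zall v hvv1 hvv2 hvv1 hvv2 hw1 hw2 j h4 hj KL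
  have pw : ∀ j < 9, Ex P2 S (fun F => U F * s ^ (18 * pcs N W KR v w a D n j F)) ≤
      B * (G1 * G2 * G3) := by
    intro j hj
    rcases Nat.lt_or_ge j 4 with h4 | h4
    · obtain ⟨b1, b2, b3⟩ := H2 w a S ha sw8
      interval_cases j
      · exact wtype (fun F => W F w a) _ (lW w a ha)
          ((ansub _ _ _).trans (bx_sub0 (by omega))) b1
      · exact wtype (fun F => N F w a (8 * a)) _ (lN w a (8 * a) (by omega))
          ((ansub _ _ _).trans (bx_sub0 (by omega))) b2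
      · exact wtype (fun F => W F w (4 * a)) _ (lW w (4 * a) (by omega))
          ((ansub _ _ _).trans (bx_sub0 (by omega))) b3
      · exact zK.2
    · exact zall w hw1 hw2 hv1 hv2 (by simp) (by simp) j h4 hj KR
  -- the pointwise comparison
  set P : ℕ → Finset Edg → ℕ := fun j F =>
    if j < 9 then pcs N W KL v v a D n j F else pcs N W KR v w a D n (j - 9) F with hP
  have hsumP : ∀ F, ∑ j ∈ range 18, P j F =
      ∑ j ∈ range 9, pcs N W KL v v a D n j F + ∑ j ∈ range 9, pcs N W KR v w a D n j F := by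
    intro F
    rw [show (18 : ℕ) = 9 + 9 from rfl, Finset.sum_range_add]
    refine congrArg₂ (· + ·) ?_ ?_
    · refine Finset.sum_congr rfl fun j hj => ?_
      simp only [hP, if_pos (Finset.mem_range.1 hj)]
    · refine Finset.sum_congr rfl fun j hj => ?_
      simp only [hP]
      rw [if_neg (by omega), show 9 + j - 9 = j by omega]
  have hpt : ∀ F, F ⊆ S →
      U F ≤ (t1 ^ N F v 0 n * t2 ^ N F w 0 n) * s ^ (∑ j ∈ range 18, P j F) ∧
      t1 ^ N F v 0 n * t2 ^ N F w 0 n ≤ U F * s ^ (∑ j ∈ range 18, P j F) := by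
    intro F _
    obtain ⟨v1, -, v3⟩ := hp F v v D n (by omega) hDn hvv1 hvv2
    obtain ⟨w1, -, w3⟩ := hp F v w D n (by omega) hDn hw1 hw2
    have v1' := v1 a (by omega)
    have w1' := w1 a (by omega)
    have v3' := v3 a ha haD
    have w3' := w3 a ha haD
    have kl := h.left F v (4 * a) (4 * a) (6 * D) le_rfl (by omega)
    have kr := h.right F w (4 * a) (4 * a) (6 * D) le_rfl (by omega)
    push_cast at kl kr
    have kl' : N F v (4 * a) (6 * D) ≤ 2 * KL F := kl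
    have kr' : N F w (4 * a) (6 * D) ≤ 2 * KR F := kr
    obtain ⟨ev, hev⟩ := Nat.exists_eq_add_of_le v1'
    obtain ⟨ew, hew⟩ := Nat.exists_eq_add_of_le w1'
    have sv := sum_pcs N W KL v v a D n F
    have sw := sum_pcs N W KR v w a D n F
    have bv : ev ≤ ∑ j ∈ range 9, pcs N W KL v v a D n j F := by omega
    have bw : ew ≤ ∑ j ∈ range 9, pcs N W KR v w a D n j F := by omega
    rw [hsumP F, pow_add s]
    set Qv := ∑ j ∈ range 9, pcs N W KL v v a D n j F
    set Qw := ∑ j ∈ range 9, pcs N W KR v w a D n j F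
    obtain ⟨p1, p2⟩ := pow_aux ht1 hs hs1 hs1' bv
    obtain ⟨p3, p4⟩ := pow_aux ht2 hs hs2 hs2' bw
    have hf : t1 ^ N F v 0 n * t2 ^ N F w 0 n = U F * (t1 ^ ev * t2 ^ ew) := by
      rw [hev, hew]
      simp only [hU]
      rw [mul_pow, pow_add, pow_add, pow_add, pow_add]
      ring
    have hUp : 0 < U F := by simp only [hU]; positivity
    rw [hf]
    constructor
    · calc U F = U F * (1 * 1) := by ring
        _ ≤ U F * ((t1 ^ ev * s ^ Qv) * (t2 ^ ew * s ^ Qw)) := by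
            refine mul_le_mul_of_nonneg_left ?_ hUp.le
            exact mul_le_mul p2 p4 (by norm_num) (by positivity)
        _ = _ := by ring
    · calc U F * (t1 ^ ev * t2 ^ ew) ≤ U F * (s ^ Qv * s ^ Qw) := by
            refine mul_le_mul_of_nonneg_left ?_ hUp.le
            exact mul_le_mul p1 p3 (by positivity) (by positivity)
        _ = _ := by ring
  have hfin := hd s B 18 S U (fun F => t1 ^ N F v 0 n * t2 ^ N F w 0 n) P hs (by norm_num)
    (by positivity) (fun F => by simp only [hU]; positivity)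
    (fun j hj => by
      rw [hEU]
      by_cases h9 : j < 9
      · simp only [hP, if_pos h9]
        exact pv j h9
      · simp only [hP, if_neg h9]
        exact pw (j - 9) (by omega))
    hpt
  rw [hEU] at hfin
  exact hfin

end Pool.Agent.W683.NC
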